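import Mathlib
import Pool.Agent.Helper340_trace.SharpFinal

/-! # MP_ebd556_mp, Q1: the multivariate trace inequality with the conjectured constant `c = 1`

Proof. Let `x_α > 0` be all positive eigenvalues of all `A_j`, `v_α` the unit eigenvectors,
`X = diag(x_α)`, and `Y ≥ 0` the square root of the Gram matrix of the vectors `x_α v_α`; then
`Tr Y = Tr √(∑ A_j²)` and `(Y²)_{αα} = x_α²`.  With `Z = Y - X`, `K = Y² - X² = XZ + ZX + Z²`
(zero diagonal) and `q = Tr X⁻¹Z²` one has `Tr X - Tr Y = q/2`, and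
`T = Tr X⁻¹KX⁻¹Z = q + Tr (X⁻¹Z)ᴴ Y (X⁻¹Z) ≥ q`, while `T ≤ κ + q/2` by the inequality of
arithmetic and geometric means, `κ = ∑ |K_{αβ}|² / (x_α x_β (x_α + x_β))`.  Hence the deficit is at
most `κ`, which is the sum over pairs `j < k` of `2 ∑ (a b / (a + b)) |⟨v, w⟩|²`, and each of these
is at most `Tr (A_j + A_k) - ‖A_j - A_k‖₁`. -/

open Matrix Finset
open scoped ComplexOrder MatrixOrder

namespace Pool.Agent.Results.MP_ebd556_mp.MultivariateTrace

open Pool.Agent.Helper340Trace

/-- the trace norm `‖X‖₁ = Tr √(Xᴴ X)` -/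
noncomputable def traceNorm {d : ℕ} (X : Matrix (Fin d) (Fin d) ℂ) : ℝ :=
  (CFC.sqrt (Xᴴ * X)).trace.re

/-- `L(A_1,…,A_n) = Tr √(∑ A_j²) - ∑ Tr A_j` -/
noncomputable def L {n d : ℕ} (A : Fin n → Matrix (Fin d) (Fin d) ℂ) : ℝ :=
  (CFC.sqrt (∑ j, A j ^ 2)).trace.re - ∑ j, (A j).trace.re

/-- `R(A_1,…,A_n) = ∑_{j<k} (‖A_j - A_k‖₁ - Tr (A_j + A_k))` -/
noncomputable def R {n d : ℕ} (A : Fin n → Matrix (Fin d) (Fin d) ℂ) : ℝ :=
  ∑ j, ∑ k ∈ univ.filter (fun k => j < k), (traceNorm (A j - A k) - (A j + A k).trace.re)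

/-- For all `n`, all `d` and all positive semidefinite `A_1, …, A_n` in `M_d(ℂ)`:
`L(A_1,…,A_n) ≥ R(A_1,…,A_n)`, that is Q1 holds with `c = 1` for every `n`. -/
theorem result (n d : ℕ) (A : Fin n → Matrix (Fin d) (Fin d) ℂ) (hA : ∀ j, (A j).PosSemidef) :
    R A ≤ L A := by
  choose x l hx hAx hl using fun j => exists_spec (hA j).isHermitian
  have hl0 : ∀ j i, 0 ≤ l j i := fun j => hl j (hA j)
  have hdef := deficit_family hx hAx hl0
  -- pair quantities
  set N : Fin n → Fin n → ℝ := fun j k =>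
    ∑ p, ∑ q, (l j p * l k q / (l j p + l k q)) * Complex.normSq (star (x j p) ⬝ᵥ x k q) with hN
  have hNsymm : ∀ j k, N j k = N k j := by
    intro j k
    simp only [hN]
    rw [sum_comm]
    exact sum_congr rfl fun q _ => sum_congr rfl fun p _ => by
      rw [mul_comm (l j p), add_comm (l j p), normSq_star_dot]
  have hNle : ∀ j k, 2 * N j k ≤ (A j + A k).trace.re - traceNorm (A j - A k) := fun j k =>
    pair_bound_sharp (hx j) (hx k) (hl0 j) (hl0 k) (hAx j) (hAx k)
  have hsum : (∑ α : Fin n × Fin d, ∑ β : Fin n × Fin d, if α = β then 0 else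
          (l α.1 α.2 * l β.1 β.2 / (l α.1 α.2 + l β.1 β.2))
            * Complex.normSq (star (x α.1 α.2) ⬝ᵥ x β.1 β.2))
      = ∑ j, ∑ k ∈ univ.filter (fun k => k ≠ j), N j k := by
    rw [Fintype.sum_prod_type]
    refine sum_congr rfl fun j _ => ?_
    have h1 : ∀ p, (∑ β : Fin n × Fin d, if (j, p) = β then 0 else
          (l j p * l β.1 β.2 / (l j p + l β.1 β.2))
            * Complex.normSq (star (x j p) ⬝ᵥ x β.1 β.2))
        = ∑ k ∈ univ.filter (fun k => k ≠ j), ∑ q,
            (l j p * l k q / (l j p + l k q)) * Complex.normSq (star (x j p) ⬝ᵥ x k q) := by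
      intro p
      rw [Fintype.sum_prod_type, sum_filter]
      refine sum_congr rfl fun k _ => ?_
      split_ifs with h
      · refine sum_congr rfl fun q _ => ?_
        rw [if_neg (fun e => h (congrArg Prod.fst e).symm)]
      · rw [not_not] at h
        subst h
        refine sum_eq_zero fun q _ => ?_
        split_ifs with h'
        · rfl
        · have hq : p ≠ q := fun e => h' (by rw [e])
          rw [(hx k).orth, if_neg hq, map_zero, mul_zero]
    rw [sum_congr rfl fun p _ => h1 p, sum_comm]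
  have hsplit : ∑ j, ∑ k ∈ univ.filter (fun k => k ≠ j), N j k
      = ∑ j, ∑ k ∈ univ.filter (fun k => j < k), 2 * N j k := by
    have h1 : ∀ j, ∑ k ∈ univ.filter (fun k => k ≠ j), N j k
        = ∑ k ∈ univ.filter (fun k => j < k), N j k + ∑ k ∈ univ.filter (fun k => k < j), N k j := by
      intro j
      rw [sum_filter, sum_filter, sum_filter, ← sum_add_distrib]
      refine sum_congr rfl fun k _ => ?_
      rcases lt_trichotomy j k with h | h | h
      · rw [if_pos h.ne', if_pos h, if_neg (not_lt.2 h.le), add_zero]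
      · subst h; simp
      · rw [if_pos h.ne, if_neg (not_lt.2 h.le), if_pos h, zero_add, hNsymm]
    rw [sum_congr rfl fun j _ => h1 j, sum_add_distrib]
    have h2 : ∑ j, ∑ k ∈ univ.filter (fun k => k < j), N k j
        = ∑ j, ∑ k ∈ univ.filter (fun k => j < k), N j k := by
      simp only [sum_filter]
      rw [sum_comm]
    rw [h2, ← sum_add_distrib]
    refine sum_congr rfl fun j _ => ?_
    rw [← mul_sum]
    ring
  have hR : ∑ j, ∑ k ∈ univ.filter (fun k => j < k), 2 * N j k ≤ - R A := by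
    unfold R
    rw [← sum_neg_distrib]
    refine sum_le_sum fun j _ => ?_
    rw [← sum_neg_distrib]
    refine sum_le_sum fun k _ => ?_
    have := hNle j k
    linarith
  rw [hsum, hsplit] at hdef
  unfold L
  linarith

end Pool.Agent.Results.MP_ebd556_mp.MultivariateTrace
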